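import Pool.Agent.Helper76.TC2.Goals
import Pool.Agent.Helper23.TC.TU
import Pool.Agent.Helper62.TC.BO

/-! Packet TC2-CL (MP_ccd65d_gt): moving inside a product of cells, with chains. -/

set_option autoImplicit false

open Set

namespace Pool.Agent.Helper23.TC2.CL

open Pool.Agent.Helper76.TC (fo med mm Cell)
open Pool.Agent.Helper76.TC2
open Pool.Agent.Helper23.TC.TU (fo_eq fo_half fo_nonneg fo_lip)

noncomputable section

/-- the nearest point of `[0, 1/2]` -/
def clp (u : ℝ) : ℝ := max (min u (1 / 2)) 0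

theorem clp_nonneg (u : ℝ) : 0 ≤ clp u := le_max_right _ _

theorem clp_le (u : ℝ) : clp u ≤ 1 / 2 := max_le (min_le_right _ _) (by norm_num)

theorem clp_eq {u : ℝ} (h0 : 0 ≤ u) (h1 : u ≤ 1 / 2) : clp u = u := by
  unfold clp
  rw [min_eq_left h1, max_eq_left h0]

theorem clp_lip (u v : ℝ) : |clp u - clp v| ≤ |u - v| := by
  unfold clp
  refine (abs_max_sub_max_le_abs _ _ _).trans ?_
  refine (abs_min_sub_min_le_max _ _ _ _).trans ?_
  rw [sub_self, abs_zero]
  exact max_le le_rfl (abs_nonneg _)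

theorem inv (s t : ℝ) (h : Cell s t) : ∃ a : ℝ → ℝ, a (fo s) = s ∧ a (fo t) = t ∧
    (∀ u, fo (a u) = clp u) ∧ ∀ u v, |a u - a v| ≤ |u - v| := by
  obtain ⟨j, h1, h2, h3, h4⟩ := h
  rcases Int.even_or_odd' j with ⟨k, hk | hk⟩
  · have hjk : (j : ℝ) = 2 * k := by exact_mod_cast hk
    have key : ∀ v : ℝ, (j : ℝ) / 2 ≤ v → v ≤ ((j : ℝ) + 1) / 2 → fo v = v - k := by
      intro v hv1 hv2
      have h0 : 0 ≤ v - k := by linarith
      rw [fo_eq (j := k) (by rw [abs_of_nonneg h0]; linarith), abs_of_nonneg h0]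
    refine ⟨fun u => (k : ℝ) + clp u, ?_, ?_, ?_, ?_⟩
    · change (k : ℝ) + clp (fo s) = s
      rw [clp_eq (fo_nonneg s) (fo_half s), key s h1 h2]
      ring
    · change (k : ℝ) + clp (fo t) = t
      rw [clp_eq (fo_nonneg t) (fo_half t), key t h3 h4]
      ring
    · intro u
      have h5 := clp_nonneg u
      have h6 := clp_le u
      change fo ((k : ℝ) + clp u) = clp u
      rw [key _ (by linarith) (by linarith)]
      ring
    · intro u v
      change |(k : ℝ) + clp u - (k + clp v)| ≤ |u - v|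
      rw [show (k : ℝ) + clp u - (k + clp v) = clp u - clp v by ring]
      exact clp_lip u v
  · have hjk : (j : ℝ) = 2 * k + 1 := by exact_mod_cast hk
    have key : ∀ v : ℝ, (j : ℝ) / 2 ≤ v → v ≤ ((j : ℝ) + 1) / 2 → fo v = (k : ℝ) + 1 - v := by
      intro v hv1 hv2
      have h0 : v - ((k + 1 : ℤ) : ℝ) ≤ 0 := by push_cast; linarith
      have h5 : |v - ((k + 1 : ℤ) : ℝ)| = (k : ℝ) + 1 - v := by
        rw [abs_of_nonpos h0]; push_cast; ring
      rw [fo_eq (j := k + 1) (by rw [h5]; linarith), h5]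
    refine ⟨fun u => (k : ℝ) + 1 - clp u, ?_, ?_, ?_, ?_⟩
    · change (k : ℝ) + 1 - clp (fo s) = s
      rw [clp_eq (fo_nonneg s) (fo_half s), key s h1 h2]
      ring
    · change (k : ℝ) + 1 - clp (fo t) = t
      rw [clp_eq (fo_nonneg t) (fo_half t), key t h3 h4]
      ring
    · intro u
      have h5 := clp_nonneg u
      have h6 := clp_le u
      change fo ((k : ℝ) + 1 - clp u) = clp u
      rw [key _ (by linarith) (by linarith)]
      ring
    · intro u v
      change |(k : ℝ) + 1 - clp u - (k + 1 - clp v)| ≤ |u - v|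
      rw [show (k : ℝ) + 1 - clp u - (k + 1 - clp v) = clp v - clp u by ring, abs_sub_comm u v]
      exact clp_lip v u

theorem t (hWM : S_WM) (hBO : S_BO2) : S_CL2 := by
  intro x x' hc
  choose a ha1 ha2 ha3 ha4 using fun i => inv (x i) (x' i) (hc i)
  have hmm : ∀ z : Fin 3 → ℝ, mm (fun i => a i (z i)) = clp (g3 z) := by
    intro z
    change med (fo (a 0 (z 0))) (fo (a 1 (z 1))) (fo (a 2 (z 2))) = clp (med (z 0) (z 1) (z 2))
    rw [ha3, ha3, ha3]
    unfold clp
    rw [Pool.Agent.Helper62.TC.BO.med_max, Pool.Agent.Helper62.TC.BO.med_min]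
  have h1 := hWM 3 3 g3 mm 1 _ _ (fun z i => a i (z i)) (fun i => fo (x i)) (fun i => fo (x' i))
    zero_le_one (by
      intro z w
      rw [pi_norm_le_iff_of_nonneg (norm_nonneg _)]
      intro i
      have h2 := norm_le_pi_norm (z - w) i
      rw [Pi.sub_apply, Real.norm_eq_abs] at h2
      rw [Pi.sub_apply, Real.norm_eq_abs]
      exact (ha4 i _ _).trans h2) (by
      intro z w
      rw [hmm, hmm, one_mul]
      exact clp_lip _ _) (hBO (fun i => fo (x i)) (fun i => fo (x' i)))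
  have hx : (fun i => a i (fo (x i))) = x := funext ha1
  have hx' : (fun i => a i (fo (x' i))) = x' := funext ha2
  have hn : ‖(fun i => fo (x i)) - (fun i => fo (x' i))‖ ≤ ‖x - x'‖ := by
    rw [pi_norm_le_iff_of_nonneg (norm_nonneg _)]
    intro i
    have h2 := norm_le_pi_norm (x - x') i
    rw [Pi.sub_apply, Real.norm_eq_abs] at h2
    rw [Pi.sub_apply, Real.norm_eq_abs]
    exact (fo_lip _ _).trans h2
  intro η hη
  obtain ⟨k, z, e1, e2, e3, e4, e5⟩ := h1 η hη
  refine ⟨k, z, e1.trans hx, e2.trans hx', e3, e4.trans (by linarith), ?_⟩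
  rw [one_mul] at e5
  exact e5

end

end Pool.Agent.Helper23.TC2.CL
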